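import Pool.Agent.W401.FL.Main
import Pool.Agent.W401.Cheb.Full
import Pool.Agent.W401.Cheb.Frob
import Pool.Agent.W54.FL.HM
import Pool.Agent.W54.FL.Disc
import Pool.Agent.W45.FLU.Unr
import Pool.Agent.W338.FL.KR
import Pool.Agent.W338.FL.FE
import Pool.Agent.W439.FL.Int
import Pool.Agent.W739.FL.Iso
import Pool.Agent.W148.FLLat

/-!
# Galois representations for all isomorphisms at one prime imply a finite field of rationality

Let `K` be a number field and let `A v` be complex polynomials for the primes `v` of `K` outside a
finite set `S`.  Suppose that, for one prime `p`, for every isomorphism of `ℂ` with the algebraic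
closure of `ℚ_[p]` there is an attached continuous semisimple `n`-dimensional representation of the
absolute Galois group of `K`.  Then the coefficients of the polynomials generate a number field.
-/

set_option autoImplicit false

namespace Pool.Agent.Results.MP_666dc0_nt.FieldOfRationality

open NumberField IsDedekindDomain Polynomial Pool.Agent.W401.FL

theorem result (K : Type) [Field K] [NumberField K] (n : ℕ) (hn : 0 < n) (p : ℕ) [Fact p.Prime]
    (S : Set (HeightOneSpectrum (𝓞 K))) (hS : S.Finite)
    (A : HeightOneSpectrum (𝓞 K) → ℂ[X]) (h : GalExists n p S A) :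
    FiniteDimensional ℚ (IntermediateField.adjoin ℚ (coefs S A)) :=
  main (Pool.Agent.W54.FL.HM.main Pool.Agent.W54.FL.Disc.main Pool.Agent.W45.FLU.main)
    Pool.Agent.W401.Cheb.chebK Pool.Agent.W401.Frob.main Pool.Agent.W148.FLLat.main
    Pool.Agent.W338.FL.main Pool.Agent.W338.FL.FE Pool.Agent.W439.FL.main Pool.Agent.W739.FL.main
    hn hS h

end Pool.Agent.Results.MP_666dc0_nt.FieldOfRationality
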